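import Pool.Agent.H24.Lib.R_seed8.H617R3.AP.Defs

/-!
# Largest progression free sets: regularity at every scale

`r k K * r k M ≤ r k ((2 K - 1) M)` by the product construction; with Behrend's bound this
controls the ratio `r k M / r k N` for all `M ≤ N` in terms of `N / M` only.
-/

set_option autoImplicit false

open Finset

namespace Pool.Agent.TH3.AP

open Pool.Agent.H617R3.AP

theorem no_ap_int {k : ℕ} (hk : 3 ≤ k) {A : Finset ℕ} (hA : APFree k A) (a : ℕ → ℕ) (e : ℤ)
    (ha : ∀ i < k, a i ∈ A) (he : ∀ i < k, (a i : ℤ) = a 0 + i * e) : e = 0 := by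
  rcases lt_trichotomy e 0 with h | h | h
  · exfalso
    obtain ⟨d, hd⟩ : ∃ d : ℕ, e = -(d : ℤ) := ⟨e.natAbs, by omega⟩
    have hd1 : 1 ≤ d := by omega
    refine hA (a (k - 1)) d hd1 fun i hi => ?_
    have h1 := he (k - 1) (by omega)
    have h2 := he (k - 1 - i) (by omega)
    have h3 : (a (k - 1) : ℤ) + i * d = a (k - 1 - i) := by
      rw [h1, h2, hd]
      have : ((k - 1 - i : ℕ) : ℤ) = ((k - 1 : ℕ) : ℤ) - i := by
        push_cast [Nat.cast_sub (show i ≤ k - 1 by omega)]
        ring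
      rw [this]
      ring
    have h4 : a (k - 1) + i * d = a (k - 1 - i) := by exact_mod_cast h3
    rw [h4]
    exact ha _ (by omega)
  · exact h
  · exfalso
    obtain ⟨d, hd⟩ : ∃ d : ℕ, e = (d : ℤ) := ⟨e.natAbs, by omega⟩
    have hd1 : 1 ≤ d := by omega
    refine hA (a 0) d hd1 fun i hi => ?_
    have h1 := he i hi
    rw [hd] at h1
    have h4 : a 0 + i * d = a i := by exact_mod_cast h1.symm
    rw [h4]
    exact ha _ hi

theorem lin_of_second {k : ℕ} (a : ℕ → ℤ)
    (h : ∀ i, i + 2 < k → a i + a (i + 2) - 2 * a (i + 1) = 0) :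
    ∀ i < k, a i = a 0 + i * (a 1 - a 0) := by
  have key : ∀ i, i + 1 < k → a i = a 0 + i * (a 1 - a 0) ∧
      a (i + 1) = a 0 + (i + 1) * (a 1 - a 0) := by
    intro i
    induction i with
    | zero => intro _; constructor <;> push_cast <;> ring
    | succ i ih =>
      intro hi
      obtain ⟨h1, h2⟩ := ih (by omega)
      have h3 := h i (by omega)
      refine ⟨by rw [h2]; push_cast; ring, ?_⟩
      have e : a (i + 1 + 1) = 2 * a (i + 1) - a i := by
        rw [show i + 1 + 1 = i + 2 by ring]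
        linarith
      rw [e, h1, h2]
      push_cast
      ring
  intro i hi
  rcases Nat.eq_zero_or_pos i with rfl | hi0
  · simp
  · obtain ⟨j, rfl⟩ : ∃ j, i = j + 1 := ⟨i - 1, by omega⟩
    have := (key j hi).2
    rw [this]; push_cast; ring

/-- **The product construction.** -/
theorem r_mul_r_le {k : ℕ} (hk : 3 ≤ k) {K : ℕ} (hK : 1 ≤ K) (M : ℕ) :
    r k K * r k M ≤ r k ((2 * K - 1) * M) := by
  classical
  obtain ⟨A, hA, hA2, hA3⟩ := exists_opt (k := k) (by omega) K
  obtain ⟨B, hB, hB2, hB3⟩ := exists_opt (k := k) (by omega) M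
  have hAb : ∀ a ∈ A, 1 ≤ a ∧ a ≤ K := fun a ha => by simpa using hA ha
  have hBb : ∀ b ∈ B, 1 ≤ b ∧ b ≤ M := fun b hb => by simpa using hB hb
  obtain ⟨L, rfl⟩ : ∃ L, K = L + 1 := ⟨K - 1, by omega⟩
  have hW : 2 * (L + 1) - 1 = 2 * L + 1 := by omega
  rw [hW]
  set φ : ℕ × ℕ → ℕ := fun p => p.1 + (2 * L + 1) * (p.2 - 1) with hφ
  have hinj : Set.InjOn φ ((A ×ˢ B : Finset (ℕ × ℕ)) : Set (ℕ × ℕ)) := by
    rintro ⟨a, b⟩ h1 ⟨a', b'⟩ h2 h
    rw [mem_coe, mem_product] at h1 h2
    obtain ⟨ha1, ha2⟩ := hAb a h1.1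
    obtain ⟨ha1', ha2'⟩ := hAb a' h2.1
    obtain ⟨hb1, hb2⟩ := hBb b h1.2
    obtain ⟨hb1', hb2'⟩ := hBb b' h2.2
    simp only [hφ] at h
    obtain ⟨c, rfl⟩ : ∃ c, b = c + 1 := ⟨b - 1, by omega⟩
    obtain ⟨c', rfl⟩ : ∃ c, b' = c + 1 := ⟨b' - 1, by omega⟩
    simp only [Nat.add_sub_cancel] at h
    have hc : c = c' := by
      rcases lt_trichotomy c c' with h3 | h3 | h3
      · exfalso
        have : (2 * L + 1) * (c + 1) ≤ (2 * L + 1) * c' := Nat.mul_le_mul_left _ h3
        nlinarith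
      · exact h3
      · exfalso
        have : (2 * L + 1) * (c' + 1) ≤ (2 * L + 1) * c := Nat.mul_le_mul_left _ h3
        nlinarith
    subst hc
    have : a = a' := by omega
    rw [this]
  have hcard : ((A ×ˢ B).image φ).card = r k (L + 1) * r k M := by
    rw [card_image_of_injOn hinj, card_product, hA3, hB3]
  rw [← hcard]
  refine card_le_r ?_ ?_
  · intro n hn
    rw [mem_image] at hn
    obtain ⟨⟨a, b⟩, h1, rfl⟩ := hn
    rw [mem_product] at h1
    obtain ⟨ha1, ha2⟩ := hAb a h1.1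
    obtain ⟨hb1, hb2⟩ := hBb b h1.2
    rw [mem_Icc]
    simp only [hφ]
    obtain ⟨c, rfl⟩ : ∃ c, b = c + 1 := ⟨b - 1, by omega⟩
    obtain ⟨M', rfl⟩ : ∃ m, M = m + 1 := ⟨M - 1, by omega⟩
    simp only [Nat.add_sub_cancel]
    have h3 : (2 * L + 1) * c ≤ (2 * L + 1) * M' := Nat.mul_le_mul_left _ (by omega)
    constructor
    · omega
    · have : (2 * L + 1) * (M' + 1) = (2 * L + 1) * M' + (2 * L + 1) := by ring
      rw [this]
      omega
  · intro x d hd hprog
    have hab : ∀ i < k, ∃ a b, a ∈ A ∧ b + 1 ∈ B ∧ x + i * d = a + (2 * L + 1) * b := by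
      intro i hi
      have h1 := hprog i hi
      rw [mem_image] at h1
      obtain ⟨⟨a, b⟩, h1, h2⟩ := h1
      rw [mem_product] at h1
      obtain ⟨hb1, hb2⟩ := hBb b h1.2
      refine ⟨a, b - 1, h1.1, by rw [Nat.sub_add_cancel hb1]; exact h1.2, ?_⟩
      rw [← h2]
    choose! a b ha hb hx using hab
    have hxz : ∀ i < k, (x : ℤ) + i * d = a i + (2 * L + 1) * b i := by
      intro i hi
      exact_mod_cast hx i hi
    have hsec : ∀ i, i + 2 < k → ((a i : ℤ) + a (i + 2) - 2 * a (i + 1) = 0 ∧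
        (b i : ℤ) + b (i + 2) - 2 * b (i + 1) = 0) := by
      intro i hi
      have e0 := hxz i (by omega)
      have e1 := hxz (i + 1) (by omega)
      have e2 := hxz (i + 2) (by omega)
      push_cast at e1 e2
      set u : ℤ := (a i : ℤ) + a (i + 2) - 2 * a (i + 1) with hu
      set v : ℤ := (b i : ℤ) + b (i + 2) - 2 * b (i + 1) with hv
      have e3 : u + (2 * L + 1) * v = 0 := by
        rw [hu, hv]
        linarith
      have h0 := hAb _ (ha i (by omega))
      have h1 := hAb _ (ha (i + 1) (by omega))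
      have h2 := hAb _ (ha (i + 2) (by omega))
      have hu1 : u ≤ 2 * L := by
        have := h0.2; have := h1.1; have := h2.2
        omega
      have hu2 : -(2 * L : ℤ) ≤ u := by
        have := h0.1; have := h1.2; have := h2.1
        omega
      have hv0 : v = 0 := by
        rcases lt_trichotomy v 0 with h | h | h
        · exfalso
          have : (2 * (L : ℤ) + 1) * v ≤ (2 * (L : ℤ) + 1) * (-1) :=
            mul_le_mul_of_nonneg_left (by omega) (by positivity)
          linarith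
        · exact h
        · exfalso
          have : (2 * (L : ℤ) + 1) * 1 ≤ (2 * (L : ℤ) + 1) * v :=
            mul_le_mul_of_nonneg_left (by omega) (by positivity)
          linarith
      refine ⟨?_, hv0⟩
      rw [hv0] at e3
      linarith
    have hla := lin_of_second (k := k) (fun i => (a i : ℤ)) (fun i hi => (hsec i hi).1)
    have hlb := lin_of_second (k := k) (fun i => (b i : ℤ)) (fun i hi => (hsec i hi).2)
    have he := no_ap_int hk hA2 a _ ha hla
    have hf := no_ap_int hk hB2 (fun i => b i + 1) ((b 1 : ℤ) - b 0) hb (fun i hi => by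
      have := hlb i hi
      push_cast
      rw [this]; ring)
    have h0 := hxz 0 (by omega)
    have h1 := hxz 1 (by omega)
    have : (a 1 : ℤ) = a 0 := by linarith
    have h3 : (b 1 : ℤ) = b 0 := by linarith
    rw [this, h3, ← h0] at h1
    push_cast at h1
    have : (d : ℤ) = 0 := by linarith
    omega

/-- the relative density at a smaller scale -/
theorem r_ratio {k : ℕ} (hk : 3 ≤ k) {M N : ℕ} (hM : 1 ≤ M) (hMN : M ≤ N) :
    (r k M : ℝ) ≤ 3 * ((M : ℝ) / N) * Real.exp (4 * √(Real.log ((N : ℝ) / M))) * r k N := by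
  set q := N / M with hq
  set K := (q + 1) / 2 with hK
  have hq1 : 1 ≤ q := (Nat.one_le_div_iff (by omega)).2 hMN
  have hK1 : 1 ≤ K := by omega
  have hqM : q * M ≤ N := Nat.div_mul_le_self N M
  have hle : (2 * K - 1) * M ≤ N := le_trans (Nat.mul_le_mul_right _ (by omega)) hqM
  have h1 : r k K * r k M ≤ r k N := (r_mul_r_le hk hK1 M).trans (r_mono hle)
  have h2 : N < (q + 1) * M := by
    have := Nat.lt_succ_iff.2 (le_refl (N / M))
    have h3 := Nat.lt_mul_of_div_lt (show N / M < q + 1 by omega) (show 0 < M by omega)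
    linarith [h3, mul_comm M (q + 1)]
  have h3 : N ≤ 3 * K * M := by
    refine h2.le.trans (Nat.mul_le_mul_right _ (by omega))
  have hM' : (0 : ℝ) < M := by exact_mod_cast hM
  have hN' : (0 : ℝ) < N := by exact_mod_cast (show 0 < N by omega)
  have hK' : (0 : ℝ) < K := by exact_mod_cast hK1
  have hKle : (K : ℝ) ≤ (N : ℝ) / M := by
    rw [le_div_iff₀ hM']
    have : K * M ≤ N := le_trans (Nat.mul_le_mul_right _ (by omega)) hqM
    exact_mod_cast this
  have hKge : (N : ℝ) / M ≤ 3 * K := by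
    rw [div_le_iff₀ hM']
    exact_mod_cast h3
  have hb := behrend hk K
  have h4 : (K : ℝ) * Real.exp (-4 * √(Real.log ((N : ℝ) / M))) ≤ r k K := by
    refine le_trans ?_ hb
    apply mul_le_mul_of_nonneg_left _ hK'.le
    apply Real.exp_le_exp.2
    have : √(Real.log K) ≤ √(Real.log ((N : ℝ) / M)) :=
      Real.sqrt_le_sqrt (Real.log_le_log hK' hKle)
    linarith
  have h5 : (r k K : ℝ) * r k M ≤ r k N := by exact_mod_cast h1
  set s := √(Real.log ((N : ℝ) / M)) with hs
  have h6 : (N : ℝ) / M / 3 * Real.exp (-4 * s) * r k M ≤ r k N := by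
    refine le_trans ?_ h5
    apply mul_le_mul_of_nonneg_right _ (Nat.cast_nonneg _)
    refine le_trans ?_ h4
    apply mul_le_mul_of_nonneg_right _ (Real.exp_pos _).le
    linarith
  have h7 : (r k M : ℝ) = 3 * ((M : ℝ) / N) * Real.exp (4 * s) *
      ((N : ℝ) / M / 3 * Real.exp (-4 * s) * r k M) := by
    have e : Real.exp (4 * s) * Real.exp (-4 * s) = 1 := by
      rw [← Real.exp_add]; simp
    have e2 : 3 * ((M : ℝ) / N) * Real.exp (4 * s) *
      ((N : ℝ) / M / 3 * Real.exp (-4 * s) * r k M) =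
      (((M : ℝ) / N) * ((N : ℝ) / M)) * (Real.exp (4 * s) * Real.exp (-4 * s)) * r k M := by ring
    rw [e2, e]
    field_simp
  rw [h7]
  exact mul_le_mul_of_nonneg_left h6 (by positivity)

/-- the growth of `r k` is almost Lipschitz -/
theorem r_step {k : ℕ} (hk : 3 ≤ k) {H N : ℕ} (hH : 1 ≤ H) (hHN : H ≤ N) :
    (r k (N + H) : ℝ) ≤
      (1 + 3 * ((H : ℝ) / N) * Real.exp (4 * √(Real.log ((N : ℝ) / H)))) * r k N := by
  have h1 : (r k (N + H) : ℝ) ≤ r k N + r k H := by
    exact_mod_cast r_add (k := k) (by omega) N H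
  have h2 := r_ratio hk hH hHN
  linarith

/-- `n` lies in one of the progressions `a, a + q, ..., a + (l - 1) q`, `(a, q) ∈ T` -/
def Covered (T : Finset (ℕ × ℕ)) (l n : ℕ) : Prop :=
  ∃ p ∈ T, ∃ j < l, n = p.1 + p.2 * j

open Classical in
/-- the part of a progression free set in a union of progressions -/
theorem card_covered_le {k : ℕ} (hk : 3 ≤ k) {A : Finset ℕ} (hA : APFree k A)
    (T : Finset (ℕ × ℕ)) (l : ℕ) (hT : ∀ p ∈ T, 1 ≤ p.2) :
    (A.filter (fun n => Covered T l n)).card ≤ T.card * r k l := by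
  have hsub : A.filter (fun n => Covered T l n) ⊆
      T.biUnion (fun p => ((range l).filter (fun j => p.1 + p.2 * j ∈ A)).image
        (fun j => p.1 + p.2 * j)) := by
    intro n hn
    rw [mem_filter] at hn
    obtain ⟨hnA, p, hp, j, hj, rfl⟩ := hn
    rw [mem_biUnion]
    refine ⟨p, hp, ?_⟩
    rw [mem_image]
    exact ⟨j, by rw [mem_filter, mem_range]; exact ⟨hj, hnA⟩, rfl⟩
  refine (card_le_card hsub).trans ?_
  refine card_biUnion_le.trans ?_
  rw [← smul_eq_mul]
  refine sum_le_card_nsmul _ _ _ fun p hp => ?_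
  exact card_image_le.trans (card_filter_le (by omega) hA (hT p hp) p.1 l)

open Classical in
theorem card_covered_ratio {k : ℕ} (hk : 3 ≤ k) {A : Finset ℕ} (hA : APFree k A)
    (T : Finset (ℕ × ℕ)) (hT : ∀ p ∈ T, 1 ≤ p.2) {l N : ℕ} (hl : 1 ≤ l) (hlN : l ≤ N) :
    ((A.filter (fun n => Covered T l n)).card : ℝ) ≤
      3 * (((T.card : ℝ) * l) / N) * Real.exp (4 * √(Real.log ((N : ℝ) / l))) * r k N := by
  have h1 : ((A.filter (fun n => Covered T l n)).card : ℝ) ≤ T.card * r k l := by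
    exact_mod_cast card_covered_le hk hA T l hT
  have h2 := mul_le_mul_of_nonneg_left (r_ratio hk hl hlN) (Nat.cast_nonneg (α := ℝ) T.card)
  refine h1.trans (h2.trans (le_of_eq ?_))
  ring

/-- consequences for an asymptotic formula -/
theorem formula {k : ℕ} (hk : 3 ≤ k) (f : ℕ → ℝ) (hf0 : ∀ N, 0 < f N)
    (hf : Filter.Tendsto (fun N => (r k N : ℝ) / f N) Filter.atTop (nhds 1)) (ε : ℝ)
    (hε : 0 < ε) : ∃ N₀ : ℕ, 1 ≤ N₀ ∧ ∀ M N : ℕ, N₀ ≤ M → M ≤ N →
      f M / M ≤ (3 + ε) * Real.exp (4 * √(Real.log ((N : ℝ) / M))) * (f N / N) ∧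
      f N / N ≤ (1 + ε) * (1 + (M : ℝ) / N) * (f M / M) ∧
      f M ≤ (1 + ε) * f N ∧
      f N ≤ (1 + ε) * (1 + 3 * (((N : ℝ) - M) / M) *
        Real.exp (4 * √(Real.log ((M : ℝ) / ((N : ℝ) - M))))) * f M := by
  -- choose `η` with `(1 + η) / (1 - η) ≤ 1 + ε / 3`
  obtain ⟨η, hη0, hη1, hη⟩ : ∃ η : ℝ, 0 < η ∧ η < 1 ∧ (1 + η) ≤ (1 + ε / 3) * (1 - η) := by
    refine ⟨min (1 / 2) (ε / (9 + ε)) , by positivity, ?_, ?_⟩
    · exact lt_of_le_of_lt (min_le_left _ _) (by norm_num)
    · have h1 : min (1 / 2) (ε / (9 + ε)) ≤ ε / (9 + ε) := min_le_right _ _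
      set m := min (1 / 2) (ε / (9 + ε)) with hm
      have h2 : m * (9 + ε) ≤ ε := by
        rw [le_div_iff₀ (by positivity)] at h1
        exact h1
      nlinarith
  have h1 : ∀ᶠ N in Filter.atTop, (r k N : ℝ) / f N ∈ Set.Ioo (1 - η) (1 + η) :=
    hf (Ioo_mem_nhds (by linarith) (by linarith))
  obtain ⟨N₁, hN₁⟩ := Filter.eventually_atTop.1 h1
  have hlow : ∀ N, N₁ ≤ N → (1 - η) * f N ≤ r k N := fun N hN => by
    have := (hN₁ N hN).1.le
    rwa [le_div_iff₀ (hf0 N)] at this
  have hupp : ∀ N, N₁ ≤ N → (r k N : ℝ) ≤ (1 + η) * f N := fun N hN => by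
    have := (hN₁ N hN).2.le
    rwa [div_le_iff₀ (hf0 N)] at this
  -- transfer of an inequality `r k x ≤ a * r k y` to `f`
  have htr : ∀ (x y : ℕ) (a : ℝ), N₁ ≤ x → N₁ ≤ y → 0 ≤ a → (r k x : ℝ) ≤ a * r k y →
      f x ≤ (1 + ε / 3) * a * f y := by
    intro x y a hx hy ha h
    have h2 := hlow x hx
    have h3 := hupp y hy
    have h4 : (1 - η) * f x ≤ a * ((1 + η) * f y) :=
      h2.trans (h.trans (mul_le_mul_of_nonneg_left h3 ha))
    have h5 : a * ((1 + η) * f y) ≤ a * (((1 + ε / 3) * (1 - η)) * f y) :=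
      mul_le_mul_of_nonneg_left (mul_le_mul_of_nonneg_right hη (hf0 y).le) ha
    have h6 : (1 - η) * f x ≤ (1 - η) * ((1 + ε / 3) * a * f y) := by
      refine (h4.trans h5).trans (le_of_eq ?_)
      ring
    exact le_of_mul_le_mul_left h6 (by linarith)
  refine ⟨max N₁ 1, le_max_right _ _, fun M N hM hMN => ?_⟩
  have hM1 : 1 ≤ M := le_trans (le_max_right _ _) hM
  have hMN₁ : N₁ ≤ M := le_trans (le_max_left _ _) hM
  have hNN₁ : N₁ ≤ N := hMN₁.trans hMN
  have hM' : (0 : ℝ) < M := by exact_mod_cast hM1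
  have hN' : (0 : ℝ) < N := by exact_mod_cast (show 0 < N by omega)
  have hfM := hf0 M
  have hfN := hf0 N
  refine ⟨?_, ?_, ?_, ?_⟩
  · have h2 := htr M N (3 * ((M : ℝ) / N) * Real.exp (4 * √(Real.log ((N : ℝ) / M)))) hMN₁ hNN₁
      (by positivity) (r_ratio hk hM1 hMN)
    rw [div_le_iff₀ hM']
    refine h2.trans (le_of_eq ?_)
    field_simp
  · have h2 := r_le (k := k) (by omega) N (show 0 < M by omega)
    have h3 := htr N M (((N : ℝ) + M) / M) hNN₁ hMN₁ (by positivity)
      (h2.trans (le_of_eq (by ring)))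
    rw [div_le_iff₀ hN']
    have h4 : (1 + ε / 3) * (((N : ℝ) + M) / M) * f M ≤ (1 + ε) * (((N : ℝ) + M) / M) * f M := by
      apply mul_le_mul_of_nonneg_right _ hfM.le
      apply mul_le_mul_of_nonneg_right _ (by positivity)
      linarith
    refine h3.trans (h4.trans (le_of_eq ?_))
    field_simp
  · have h3 := htr M N 1 hMN₁ hNN₁ zero_le_one (by
      rw [one_mul]; exact_mod_cast r_mono (k := k) hMN)
    nlinarith
  · rcases Nat.eq_or_lt_of_le hMN with h | h
    · subst h
      have : (0 : ℝ) ≤ 3 * (((M : ℝ) - M) / M) *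
        Real.exp (4 * √(Real.log ((M : ℝ) / ((M : ℝ) - M)))) := by simp
      nlinarith [mul_nonneg this hfM.le, mul_nonneg (mul_nonneg hε.le this) hfM.le]
    · rcases Nat.lt_or_ge M (N - M) with h5 | h5
      · -- the increment is larger than `M`
        have h2 := r_le (k := k) (by omega) N (show 0 < M by omega)
        have h3 := htr N M (((N : ℝ) + M) / M) hNN₁ hMN₁ (by positivity)
          (h2.trans (le_of_eq (by ring)))
        have h6 : (M : ℝ) < (N : ℝ) - M := by
          have : M + M < N := by omega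
          have : (M : ℝ) + M < N := by exact_mod_cast this
          linarith
        have h7 : (1 : ℝ) ≤ Real.exp (4 * √(Real.log ((M : ℝ) / ((N : ℝ) - M)))) :=
          Real.one_le_exp (by positivity)
        have h8 : ((N : ℝ) + M) / M ≤ 1 + 3 * (((N : ℝ) - M) / M) *
            Real.exp (4 * √(Real.log ((M : ℝ) / ((N : ℝ) - M)))) := by
          have h9 : 1 ≤ ((N : ℝ) - M) / M := by
            rw [le_div_iff₀ hM']; linarith
          have h10 : ((N : ℝ) + M) / M = ((N : ℝ) - M) / M + 2 := by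
            field_simp; ring
          rw [h10]
          nlinarith
        refine h3.trans ?_
        apply mul_le_mul_of_nonneg_right _ hfM.le
        refine mul_le_mul (by linarith) h8 (by positivity) (by linarith)
      · have h2 := r_step hk (show 1 ≤ N - M by omega) h5
        have e : M + (N - M) = N := by omega
        have e2 : ((N - M : ℕ) : ℝ) = (N : ℝ) - M := by
          rw [Nat.cast_sub hMN]
        rw [e, e2] at h2
        have hpos : (0 : ℝ) ≤ (N : ℝ) - M := by rw [← e2]; exact Nat.cast_nonneg _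
        have h3 := htr N M _ hNN₁ hMN₁ (by positivity) h2
        refine h3.trans ?_
        apply mul_le_mul_of_nonneg_right _ hfM.le
        apply mul_le_mul_of_nonneg_right _ (by positivity)
        linarith

end Pool.Agent.TH3.AP
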